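import Pool.Agent.ANR.Stmts

/-!
# LVS: leverages exist, and their sum is at most the number of sites
-/

set_option autoImplicit false

open scoped BigOperators ComplexConjugate

noncomputable section

namespace Pool.Agent.ANR.H90

open Pool.Agent.ANR

set_option linter.unusedSectionVars false

variable {X : Type} [Fintype X] [DecidableEq X]

theorem opv_add (H : Matrix X X ℝ) (κ : X → ℝ) (φ ψ : X → ℂ) (x : X) :
    opv H κ (φ + ψ) x = opv H κ φ x + opv H κ ψ x := by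
  unfold opv
  simp only [Pi.add_apply, mul_add, Finset.sum_add_distrib]
  ring

theorem opv_smul (H : Matrix X X ℝ) (κ : X → ℝ) (a : ℂ) (ψ : X → ℂ) (x : X) :
    opv H κ (a • ψ) x = a * opv H κ ψ x := by
  unfold opv
  simp only [Pi.smul_apply, smul_eq_mul]
  rw [mul_sub, Finset.mul_sum]
  refine congrArg₂ _ (Finset.sum_congr rfl fun y _ => ?_) ?_ <;> ring

theorem opv_zero (H : Matrix X X ℝ) (κ : X → ℝ) (x : X) : opv H κ 0 x = 0 := by
  simp [opv]

/-- the space of the solutions off `F` -/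
def solS (H : Matrix X X ℝ) (κ : X → ℝ) (F : Finset X) : Submodule ℂ (X → ℂ) where
  carrier := {ψ | Sol H κ F ψ}
  add_mem' := by
    intro φ ψ h1 h2 z hz
    rw [opv_add, h1 z hz, h2 z hz, add_zero]
  zero_mem' := by
    intro z _
    exact opv_zero H κ z
  smul_mem' := by
    intro a ψ h1 z hz
    rw [opv_smul, h1 z hz, mul_zero]

/-- the weighted outer part -/
def wt (κ : X → ℝ) (F : Finset X) : (X → ℂ) →ₗ[ℂ] EuclideanSpace ℂ X where
  toFun ψ := WithLp.toLp 2 (fun x => if x ∈ F then 0 else (Real.sqrt (κ x) : ℂ) * ψ x)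
  map_add' := by
    intro φ ψ
    ext x
    simp only [PiLp.add_apply, Pi.add_apply]
    by_cases hx : x ∈ F <;> simp [hx, mul_add]
  map_smul' := by
    intro a ψ
    ext x
    simp only [PiLp.smul_apply, Pi.smul_apply, smul_eq_mul, RingHom.id_apply]
    by_cases hx : x ∈ F
    · simp [hx]
    · simp only [hx, if_false]; ring

theorem wt_apply (κ : X → ℝ) (F : Finset X) (ψ : X → ℂ) (x : X) :
    wt κ F ψ x = if x ∈ F then 0 else (Real.sqrt (κ x) : ℂ) * ψ x := rfl

theorem wt_norm {H : Matrix X X ℝ} {κ : X → ℝ} (hN : Net H κ) (F : Finset X) (ψ : X → ℂ) :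
    ‖wt κ F ψ‖ ^ 2 = Q κ F ψ := by
  have h0 : ∑ x ∈ Fᶜ, ‖wt κ F ψ x‖ ^ 2 = ∑ x, ‖wt κ F ψ x‖ ^ 2 := by
    refine Finset.sum_subset (Finset.subset_univ (Fᶜ)) ?_
    intro x _ hx
    rw [wt_apply, if_pos (by simpa using hx)]
    simp
  rw [EuclideanSpace.norm_sq_eq, Q, ← h0]
  refine Finset.sum_congr rfl fun x hx => ?_
  rw [wt_apply, if_neg (Finset.mem_compl.1 hx), norm_mul, mul_pow, Complex.norm_real,
    Real.norm_eq_abs, sq_abs, Real.sq_sqrt (hN.pos x).le]

/-- the solutions are determined by their values in `F` -/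
theorem finrank_le (hD : DirStmt) {H : Matrix X X ℝ} {κ : X → ℝ} (hN : Net H κ) (F : Finset X) :
    Module.finrank ℂ (solS H κ F) ≤ F.card := by
  have h1 : Module.finrank ℂ ({b // b ∈ F} → ℂ) = F.card := by
    rw [Module.finrank_fintype_fun_eq_card, Fintype.card_coe]
  rw [← h1]
  let r : solS H κ F →ₗ[ℂ] ({b // b ∈ F} → ℂ) :=
    { toFun := fun ψ b => (ψ : X → ℂ) b
      map_add' := fun _ _ => rfl
      map_smul' := fun _ _ => rfl }
  have hinj : Function.Injective r := by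
    intro φ ψ h
    apply Subtype.ext
    refine (hD X H κ F hN (fun b => (φ : X → ℂ) b) 0).unique ⟨fun b _ => rfl, ?_⟩ ⟨fun b hb => ?_, ?_⟩
    · intro x hx
      exact φ.2 x hx
    · exact (congrFun h ⟨b, hb⟩).symm
    · intro x hx
      exact ψ.2 x hx
  exact LinearMap.finrank_le_finrank_of_injective hinj

theorem lvs (hD : DirStmt) : LvsStmt := by
  intro X _ _ H κ F hN
  let W : Submodule ℂ (EuclideanSpace ℂ X) := (solS H κ F).map (wt κ F)
  have hW : Module.finrank ℂ W ≤ F.card :=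
    le_trans (Submodule.finrank_map_le _ _) (finrank_le hD hN F)
  let b := stdOrthonormalBasis ℂ W
  let L : X → ℝ := fun x => (∑ i, ‖((b i : W) : EuclideanSpace ℂ X) x‖ ^ 2) / κ x
  refine ⟨L, fun x => div_nonneg (Finset.sum_nonneg fun i _ => by positivity) (hN.pos x).le, ?_, ?_⟩
  · intro x hx ψ hψ
    let v : W := ⟨wt κ F ψ, Submodule.mem_map_of_mem hψ⟩
    have h1 : ((v : W) : EuclideanSpace ℂ X) x =
        ∑ i, (b.repr v i) * ((b i : W) : EuclideanSpace ℂ X) x := by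
      have h := b.sum_repr v
      have h2 := congrArg (fun u : W => ((u : W) : EuclideanSpace ℂ X) x) h
      simp only at h2
      rw [← h2]
      simp
    have h2 : ‖((v : W) : EuclideanSpace ℂ X) x‖ ^ 2 ≤
        (∑ i, ‖b.repr v i‖ ^ 2) * ∑ i, ‖((b i : W) : EuclideanSpace ℂ X) x‖ ^ 2 := by
      rw [h1]
      calc ‖∑ i, (b.repr v i) * ((b i : W) : EuclideanSpace ℂ X) x‖ ^ 2
          ≤ (∑ i, ‖b.repr v i‖ * ‖((b i : W) : EuclideanSpace ℂ X) x‖) ^ 2 := by
            gcongr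
            refine le_trans (norm_sum_le _ _) (le_of_eq (Finset.sum_congr rfl fun i _ => norm_mul _ _))
        _ ≤ _ := Finset.sum_mul_sq_le_sq_mul_sq _ _ _
    have h3 : ∑ i, ‖b.repr v i‖ ^ 2 = Q κ F ψ := by
      rw [← EuclideanSpace.norm_sq_eq, b.repr.norm_map, ← wt_norm hN F ψ]
      rfl
    have h4 : ‖((v : W) : EuclideanSpace ℂ X) x‖ ^ 2 = κ x * ‖ψ x‖ ^ 2 := by
      change ‖wt κ F ψ x‖ ^ 2 = _
      rw [wt_apply, if_neg hx, norm_mul, mul_pow, Complex.norm_real, Real.norm_eq_abs, sq_abs,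
        Real.sq_sqrt (hN.pos x).le]
    rw [h3, h4] at h2
    have hk := hN.pos x
    change ‖ψ x‖ ^ 2 ≤ (∑ i, ‖((b i : W) : EuclideanSpace ℂ X) x‖ ^ 2) / κ x * Q κ F ψ
    rw [div_mul_eq_mul_div, le_div_iff₀ hk]
    linarith [h2, mul_comm (κ x) (‖ψ x‖ ^ 2), mul_comm (Q κ F ψ)
      (∑ i, ‖((b i : W) : EuclideanSpace ℂ X) x‖ ^ 2)]
  · have h1 : ∀ x, κ x * L x = ∑ i, ‖((b i : W) : EuclideanSpace ℂ X) x‖ ^ 2 := by
      intro x
      change κ x * ((∑ i, ‖((b i : W) : EuclideanSpace ℂ X) x‖ ^ 2) / κ x) = _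
      rw [mul_div_cancel₀ _ (hN.pos x).ne']
    calc ∑ x ∈ Fᶜ, κ x * L x = ∑ x ∈ Fᶜ, ∑ i, ‖((b i : W) : EuclideanSpace ℂ X) x‖ ^ 2 :=
          Finset.sum_congr rfl fun x _ => h1 x
      _ ≤ ∑ x, ∑ i, ‖((b i : W) : EuclideanSpace ℂ X) x‖ ^ 2 :=
          Finset.sum_le_sum_of_subset_of_nonneg (Finset.subset_univ _)
            fun x _ _ => Finset.sum_nonneg fun i _ => by positivity
      _ = ∑ i, ∑ x, ‖((b i : W) : EuclideanSpace ℂ X) x‖ ^ 2 := Finset.sum_comm
      _ = ∑ i : Fin (Module.finrank ℂ W), (1 : ℝ) := by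
          refine Finset.sum_congr rfl fun i _ => ?_
          rw [← EuclideanSpace.norm_sq_eq]
          have : ‖(b i : W)‖ = 1 := b.orthonormal.1 i
          rw [← Submodule.coe_norm] at *
          rw [this]; norm_num
      _ = (Module.finrank ℂ W : ℝ) := by simp
      _ ≤ F.card := by exact_mod_cast hW

end Pool.Agent.ANR.H90
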